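import Pool.Agent.Helper89.KN.Spec
import Pool.Agent.Helper89.KN.Base

/-! Swarm KN, common lemmas for MIN, TIN, MLE, TLE, DB. -/

open MeasureTheory Set Filter Topology
open scoped ENNReal

noncomputable section

namespace KN
namespace H63

theorem PP_mono (hB : S_BASIC) {S : Set ℂ} (hS : MeasurableSet S) {Q Q' : Multiset ℂ → Prop}
    (h : ∀ ω : Multiset ℂ, (∀ z ∈ ω, z ∈ S) → Q ω → Q' ω) : PP S Q ≤ PP S Q' := by
  apply hB.1 S _ _ hS
  intro m x hx hQ
  refine h _ ?_ hQ
  intro z hz
  obtain ⟨i, rfl⟩ := mem_conf.1 hz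
  exact hx i

theorem PP_congr (hB : S_BASIC) {S : Set ℂ} (hS : MeasurableSet S) {Q Q' : Multiset ℂ → Prop}
    (h : ∀ ω : Multiset ℂ, (∀ z ∈ ω, z ∈ S) → (Q ω ↔ Q' ω)) : PP S Q = PP S Q' :=
  le_antisymm (PP_mono hB hS fun ω hω => (h ω hω).1) (PP_mono hB hS fun ω hω => (h ω hω).2)

theorem PP_false (S : Set ℂ) {Q : Multiset ℂ → Prop} (h : ∀ ω, ¬ Q ω) : PP S Q = 0 := by
  unfold PP prob
  rw [ENNReal.tsum_eq_zero]
  intro m
  have : {x : Fin m → ℂ | Q (conf x)} = ∅ := by
    ext x; simp [h]
  rw [this]; simp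

/-- removing a region which is void -/
theorem void_bound (hB : S_BASIC) (hV : S_VOID) {B R : Set ℂ} (hBm : MeasurableSet B)
    (hRm : MeasurableSet R) (hfin : volume B ≠ ⊤) {Q : Multiset ℂ → Prop} (hQ : EMeas Q) :
    ENNReal.ofReal (Real.exp (-(volume (B ∩ R)).toReal)) * PP (B \ R) Q ≤ PP B Q := by
  have h1 := hV B (B ∩ R) hBm (hBm.inter hRm) inter_subset_left hfin Q hQ
  have h2 : B \ (B ∩ R) = B \ R := by
    ext z; simp
  rw [h2] at h1
  rw [← h1]
  apply PP_mono hB hBm
  rintro ω hω ⟨h3, h4⟩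
  rw [cnt_eq_zero] at h3
  have h5 : res (B \ R) ω = ω := by
    apply res_eq_self
    intro z hz
    exact ⟨hω z hz, fun hzR => h3 z hz ⟨hω z hz, hzR⟩⟩
  rw [h5] at h4
  exact h4

/-- arithmetic of exponentials in `ℝ≥0∞` -/
theorem exp_cancel {a b c : ℝ} {P q : ℝ≥0∞} (h : a + c ≤ b)
    (hP : ENNReal.ofReal (Real.exp (-a)) * P ≤ ENNReal.ofReal (Real.exp (-b)) * q) :
    P ≤ ENNReal.ofReal (Real.exp (-c)) * q := by
  have h1 : ENNReal.ofReal (Real.exp a) * ENNReal.ofReal (Real.exp (-a)) = 1 := by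
    rw [← ENNReal.ofReal_mul (Real.exp_pos _).le, ← Real.exp_add]; simp
  calc P = ENNReal.ofReal (Real.exp a) * (ENNReal.ofReal (Real.exp (-a)) * P) := by
        rw [← mul_assoc, h1, one_mul]
    _ ≤ ENNReal.ofReal (Real.exp a) * (ENNReal.ofReal (Real.exp (-b)) * q) := by gcongr
    _ = ENNReal.ofReal (Real.exp (a - b)) * q := by
        rw [← mul_assoc, ← ENNReal.ofReal_mul (Real.exp_pos _).le, ← Real.exp_add]
        rfl
    _ ≤ ENNReal.ofReal (Real.exp (-c)) * q := by
        gcongr
        linarith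

theorem refl_refl (z : ℂ) : refl (refl z) = z := by
  apply Complex.ext <;> simp [refl]

theorem Sq_measurable (n : ℝ) : MeasurableSet (Sq n) := by
  unfold Sq SqL
  refine MeasurableSet.inter (measurableSet_le measurable_const Complex.measurable_re) ?_
  refine MeasurableSet.inter (measurableSet_le Complex.measurable_re measurable_const) ?_
  exact MeasurableSet.inter (measurableSet_le measurable_const Complex.measurable_im)
    (measurableSet_le Complex.measurable_im measurable_const)

theorem Sq_volume {n : ℝ} (hn : 0 ≤ n) : volume (Sq n) = ENNReal.ofReal n := by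
  have h0 : Sq n = Complex.measurableEquivRealProd ⁻¹'
      (Icc 0 (Real.sqrt n) ×ˢ Icc 0 (Real.sqrt n)) := by
    ext z
    simp only [Sq, SqL, mem_ofPred_eq, mem_preimage, mem_prod, mem_Icc,
      Complex.measurableEquivRealProd_apply]
    tauto
  rw [h0, Complex.volume_preserving_equiv_real_prod.measure_preimage
    (measurableSet_Icc.prod measurableSet_Icc).nullMeasurableSet, Measure.volume_eq_prod,
    Measure.prod_prod, Real.volume_Icc, ← ENNReal.ofReal_mul (by simp)]
  congr 1
  rw [sub_zero, Real.mul_self_sqrt hn]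

theorem Sq_finite {n : ℝ} (hn : 0 ≤ n) : volume (Sq n) ≠ ⊤ := by
  rw [Sq_volume hn]; exact ENNReal.ofReal_ne_top

/-- interior points, explicitly -/
theorem Inn_eq (n : ℝ) {L : ℝ} (hL : 0 ≤ L) : Inn n L =
    {v : ℂ | L ≤ v.re ∧ v.re + L ≤ Real.sqrt n ∧ L ≤ v.im ∧ v.im + L ≤ Real.sqrt n} := by
  ext v
  simp only [Inn, mem_ofPred_eq]
  constructor
  · intro h
    have e1 : v + (L : ℂ) ∈ Sq n := h (by simp [Metric.mem_closedBall, dist_eq_norm, abs_of_nonneg hL])
    have e2 : v - (L : ℂ) ∈ Sq n := h (by simp [Metric.mem_closedBall, dist_eq_norm, abs_of_nonneg hL])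
    have e3 : v + L * Complex.I ∈ Sq n :=
      h (by simp [Metric.mem_closedBall, dist_eq_norm, abs_of_nonneg hL])
    have e4 : v - L * Complex.I ∈ Sq n :=
      h (by simp [Metric.mem_closedBall, dist_eq_norm, abs_of_nonneg hL])
    simp only [Sq, SqL, mem_ofPred_eq, Complex.add_re, Complex.sub_re, Complex.ofReal_re,
      Complex.add_im, Complex.sub_im, Complex.mul_im, Complex.ofReal_im, Complex.I_re,
      Complex.I_im, mul_zero, mul_one, zero_add, add_zero, Complex.mul_re, sub_zero] at e1 e2 e3 e4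
    refine ⟨by linarith [e2.1], by linarith [e1.2.1], by linarith [e4.2.2.1], by linarith [e3.2.2.2]⟩
  · rintro ⟨h1, h2, h3, h4⟩ z hz
    rw [Metric.mem_closedBall, dist_eq_norm] at hz
    have h5 := (Complex.abs_re_le_norm (z - v)).trans hz
    have h6 := (Complex.abs_im_le_norm (z - v)).trans hz
    rw [abs_le] at h5 h6
    simp only [Complex.sub_re, Complex.sub_im] at h5 h6
    refine ⟨by linarith [h5.1], by linarith [h5.2], by linarith [h6.1], by linarith [h6.2]⟩

theorem Inn_measurable (n : ℝ) {L : ℝ} (hL : 0 ≤ L) : MeasurableSet (Inn n L) := by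
  rw [Inn_eq n hL]
  refine MeasurableSet.inter (measurableSet_le measurable_const Complex.measurable_re) ?_
  refine MeasurableSet.inter (measurableSet_le (Complex.measurable_re.add_const _)
    measurable_const) ?_
  exact MeasurableSet.inter (measurableSet_le measurable_const Complex.measurable_im)
    (measurableSet_le (Complex.measurable_im.add_const _) measurable_const)

theorem Lef_measurable (n L : ℝ) : MeasurableSet (Lef n L) := by
  unfold Lef
  refine MeasurableSet.inter (measurableSet_le measurable_const Complex.measurable_re) ?_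
  refine MeasurableSet.inter (measurableSet_lt Complex.measurable_re measurable_const) ?_
  exact MeasurableSet.inter (measurableSet_le measurable_const Complex.measurable_im)
    (measurableSet_le Complex.measurable_im measurable_const)

/-- near the left side the ball meets the square in a half disc -/
theorem ball_Lef {n L : ℝ} {v : ℂ} (hL : 2 * L ≤ Real.sqrt n) (hv : v ∈ Lef n L) :
    Metric.ball v L ∩ Sq n = Metric.ball v L ∩ HP := by
  obtain ⟨h1, h2, h3, h4⟩ := hv
  ext z
  simp only [mem_inter_iff, and_congr_right_iff]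
  intro hz
  rw [Metric.mem_ball, dist_eq_norm] at hz
  have h5 := (Complex.abs_re_le_norm (z - v)).trans_lt hz
  have h6 := (Complex.abs_im_le_norm (z - v)).trans_lt hz
  rw [abs_lt] at h5 h6
  simp only [Complex.sub_re, Complex.sub_im] at h5 h6
  constructor
  · intro h; exact h.1
  · intro h
    exact ⟨h, by linarith [h5.2], by linarith [h6.1], by linarith [h6.2]⟩

/-- `∫ e^{-b|u-v|} du` -/
theorem lintegral_exp_dist {b : ℝ} (hb : 0 < b) (v : ℂ) :
    ∫⁻ u : ℂ, ENNReal.ofReal (Real.exp (-(b * dist u v))) =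
      ENNReal.ofReal (2 * Real.pi / b ^ 2) := by
  have h1 : ∫⁻ u : ℂ, ENNReal.ofReal (Real.exp (-(b * dist u v))) =
      ∫⁻ u : ℂ, ENNReal.ofReal (Real.exp (-b * ‖u‖ ^ (1 : ℝ))) := by
    have := lintegral_sub_right_eq_self
      (fun u : ℂ => ENNReal.ofReal (Real.exp (-b * ‖u‖ ^ (1 : ℝ)))) v (μ := volume)
    rw [← this]
    congr 1
    funext u
    rw [dist_eq_norm, Real.rpow_one]
    ring_nf
  have h2 := Complex.integral_exp_neg_mul_rpow (p := 1) (b := b) le_rfl hb
  have h3 : ∫⁻ u : ℂ, ENNReal.ofReal (Real.exp (-b * ‖u‖ ^ (1 : ℝ))) =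
      ENNReal.ofReal (∫ u : ℂ, Real.exp (-b * ‖u‖ ^ (1 : ℝ))) := by
    rw [ofReal_integral_eq_lintegral_ofReal]
    · by_contra hcon
      rw [integral_undef hcon] at h2
      have : (0 : ℝ) < Real.pi * b ^ (-(2 : ℝ) / 1) * Real.Gamma (2 / 1 + 1) := by
        have := Real.Gamma_pos_of_pos (s := 2 / 1 + 1) (by norm_num)
        positivity
      linarith
    · exact Filter.Eventually.of_forall (fun _ => (Real.exp_pos _).le)
  rw [h1, h3, h2]
  congr 1
  have hG : Real.Gamma (2 / 1 + 1) = 2 := by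
    have := Real.Gamma_nat_eq_factorial 2
    norm_num at this ⊢
  rw [hG, div_one, Real.rpow_neg hb.le]
  norm_num
  ring

end H63
end KN
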