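import Pool.Agent.Helper63.KN.Common

/-! Swarm KN, part DB. -/

open MeasureTheory Set Filter Topology
open scoped ENNReal

noncomputable section

namespace KN
namespace H63

/-- the reflection as a measurable equivalence -/
def reflE : ℂ ≃ᵐ ℂ where
  toFun := refl
  invFun := refl
  left_inv := refl_refl
  right_inv := refl_refl
  measurable_toFun := by
    have : (refl : ℂ → ℂ) = fun z => -(starRingEnd ℂ z) := by
      funext z; apply Complex.ext <;> simp [refl]
    show Measurable refl
    rw [this]
    exact (Complex.continuous_conj.measurable).neg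
  measurable_invFun := by
    have : (refl : ℂ → ℂ) = fun z => -(starRingEnd ℂ z) := by
      funext z; apply Complex.ext <;> simp [refl]
    show Measurable refl
    rw [this]
    exact (Complex.continuous_conj.measurable).neg

theorem refl_eq (z : ℂ) : refl z = -(starRingEnd ℂ z) := by
  apply Complex.ext <;> simp [refl]

theorem dist_refl_refl (z w : ℂ) : dist (refl z) (refl w) = dist z w := by
  rw [dist_eq_norm, dist_eq_norm, refl_eq, refl_eq]
  have : -(starRingEnd ℂ z) - -(starRingEnd ℂ w) = -(starRingEnd ℂ (z - w)) := by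
    rw [map_sub]; ring
  rw [this, norm_neg, RCLike.norm_conj]

theorem dist_refl (z w : ℂ) : dist (refl z) w = dist z (refl w) := by
  have := dist_refl_refl z (refl w)
  rw [refl_refl] at this
  exact this

/-- points of the half plane: reflecting one increases the distance -/
theorem dist_le_refl {z w : ℂ} (hz : z ∈ HP) (hw : w ∈ HP) : dist z w ≤ dist z (refl w) := by
  have hz' : 0 ≤ z.re := hz
  have hw' : 0 ≤ w.re := hw
  rw [Complex.dist_eq_re_im, Complex.dist_eq_re_im]
  apply Real.sqrt_le_sqrt
  simp only [refl]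
  nlinarith [mul_nonneg hz' hw']

theorem refl_HP {z : ℂ} (hz : z ∉ HP) : refl z ∈ HP := by
  simp only [HP, mem_ofPred_eq, not_le] at hz ⊢
  simp only [refl]
  linarith

theorem refl_measurePreserving : MeasurePreserving reflE volume volume := by
  have h1 : MeasurePreserving (fun z : ℂ => starRingEnd ℂ z) volume volume := by
    have := Complex.conjLIE.measurePreserving (E := ℂ) (F := ℂ)
    exact this
  have h2 : MeasurePreserving (fun z : ℂ => -z) volume volume :=
    Measure.measurePreserving_neg volume
  have h3 := h2.comp h1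
  have : ((fun z : ℂ => -z) ∘ fun z : ℂ => starRingEnd ℂ z) = reflE := by
    funext z
    exact (refl_eq z).symm
  rw [this] at h3
  exact h3

/-- `PP` only depends on the set up to null sets -/
theorem PP_ae_eq {S S' : Set ℂ} (h : S =ᵐ[volume] S') (Q : Multiset ℂ → Prop) :
    PP S Q = PP S' Q := by
  unfold PP prob
  rw [measure_congr h]
  congr 1
  funext m
  rw [Measure.restrict_congr_set h]

theorem axis_null : volume {z : ℂ | z.re = 0} = 0 := by
  have h0 : {z : ℂ | z.re = 0} = Complex.measurableEquivRealProd ⁻¹' ({0} ×ˢ univ) := by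
    ext z
    simp only [mem_ofPred_eq, mem_preimage, mem_prod, mem_singleton_iff, mem_univ, and_true,
      Complex.measurableEquivRealProd_apply]
  rw [h0, Complex.volume_preserving_equiv_real_prod.measure_preimage
    ((measurableSet_singleton _).prod MeasurableSet.univ).nullMeasurableSet,
    Measure.volume_eq_prod, Measure.prod_prod]
  simp

theorem HP_measurable : MeasurableSet HP := measurableSet_le measurable_const Complex.measurable_re

theorem infDist_union_refl {R : Set ℂ} (hR : R ⊆ HP) (hne : R.Nonempty) {p : ℂ} (hp : p ∈ HP) :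
    Metric.infDist p (R ∪ refl '' R) = Metric.infDist p R := by
  apply le_antisymm
  · exact Metric.infDist_le_infDist_of_subset subset_union_left hne
  · rw [Metric.le_infDist (hne.mono subset_union_left)]
    rintro y (hy | ⟨x, hx, rfl⟩)
    · exact Metric.infDist_le_dist_of_mem hy
    · exact (Metric.infDist_le_dist_of_mem hx).trans (dist_le_refl hp (hR hx))

theorem infDist_union_refl' {R : Set ℂ} (hne : R.Nonempty) (p : ℂ) :
    Metric.infDist (refl p) (R ∪ refl '' R) = Metric.infDist p (R ∪ refl '' R) := by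
  have hne' : (R ∪ refl '' R).Nonempty := hne.mono subset_union_left
  have key : ∀ p : ℂ, Metric.infDist (refl p) (R ∪ refl '' R) ≤
      Metric.infDist p (R ∪ refl '' R) := by
    intro p
    rw [Metric.le_infDist hne']
    rintro y (hy | ⟨x, hx, rfl⟩)
    · have : dist p y = dist (refl p) (refl y) := (dist_refl_refl _ _).symm
      rw [this]
      exact Metric.infDist_le_dist_of_mem (Or.inr ⟨y, hy, rfl⟩)
    · have : dist p (refl x) = dist (refl p) x := (dist_refl _ _).symm
      rw [this]
      exact Metric.infDist_le_dist_of_mem (Or.inl hx)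
  apply le_antisymm (key p)
  have := key (refl p)
  rw [refl_refl] at this
  exact this

theorem db_thm (hB : S_BASIC) (hInd : S_IND) (hRes : S_RES) (hMapE : S_MAPE) (hI : S_ISOM) :
    S_DB := by
  intro k v R η δ Λ ρ hv hR hRc hne hΛ hΛρ
  set D : Set ℂ := Metric.ball v ρ ∩ HP with hD
  set N : Set ℂ := (Metric.ball (refl v) ρ ∩ {z : ℂ | z.re < 0}) with hN
  have hDm : MeasurableSet D := Metric.isOpen_ball.measurableSet.inter HP_measurable
  have hNm : MeasurableSet N := Metric.isOpen_ball.measurableSet.inter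
    (measurableSet_lt Complex.measurable_re measurable_const)
  have hdisj : Disjoint D N := by
    rw [Set.disjoint_left]
    rintro z ⟨_, hz⟩ ⟨_, hz'⟩
    have h1 : 0 ≤ z.re := hz
    have h2 : z.re < 0 := hz'
    linarith
  have hDf : volume D ≠ ⊤ := ((measure_mono inter_subset_left).trans_lt
    (measure_ball_lt_top (μ := volume) (x := v) (r := ρ))).ne
  have hNf : volume N ≠ ⊤ := ((measure_mono inter_subset_left).trans_lt
    (measure_ball_lt_top (μ := volume) (x := refl v) (r := ρ))).ne
  set Q₁ : Multiset ℂ → Prop := Iso k v R η δ Λ with hQ₁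
  have hQ₁m : EMeas Q₁ := (hI.1 k v R η δ Λ univ MeasurableSet.univ).2
  set Q₂ : Multiset ℂ → Prop := fun ω => Q₁ (ω.map reflE) with hQ₂
  have hQ₂m : EMeas Q₂ := by
    intro m
    have h1 : {x : Fin m → ℂ | Q₂ (conf x)} =
        (fun x : Fin m → ℂ => fun i => reflE (x i)) ⁻¹' {x | Q₁ (conf x)} := by
      ext x
      simp only [hQ₂, mem_ofPred_eq, mem_preimage]
      rw [conf_map]
    rw [h1]
    apply (hQ₁m m).preimage
    exact measurable_pi_lambda _ (fun i => reflE.measurable.comp (measurable_pi_apply i))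
  have h1 : PP (D ∪ N) (fun ω => Q₁ (res D ω) ∧ Q₂ (res N ω)) = PP D Q₁ * PP N Q₂ :=
    hInd D N hDm hNm hdisj hDf hNf Q₁ Q₂ hQ₁m hQ₂m
  have h2 : PP N Q₂ = PP D Q₁ := by
    rw [hMapE N reflE refl_measurePreserving Q₁]
    apply PP_ae_eq
    have h3 : reflE '' N = Metric.ball v ρ ∩ {z : ℂ | 0 < z.re} := by
      ext z
      constructor
      · rintro ⟨w, ⟨hw1, hw2⟩, rfl⟩
        refine ⟨?_, ?_⟩
        · rw [Metric.mem_ball] at hw1 ⊢
          show dist (refl w) v < ρ
          rw [dist_refl]; exact hw1
        · show 0 < (refl w).re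
          have : w.re < 0 := hw2
          simp only [refl]; linarith
      · rintro ⟨hz1, hz2⟩
        refine ⟨refl z, ⟨?_, ?_⟩, refl_refl z⟩
        · rw [Metric.mem_ball] at hz1 ⊢
          rw [dist_refl_refl]; exact hz1
        · show (refl z).re < 0
          have : 0 < z.re := hz2
          simp only [refl]; linarith
    rw [h3]
    have h4 : ({z : ℂ | 0 < z.re} : Set ℂ) =ᵐ[volume] HP := by
      rw [Filter.eventuallyEq_set, ae_iff]
      refine measure_mono_null ?_ axis_null
      intro z hz
      simp only [mem_ofPred_eq, HP] at hz ⊢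
      by_contra hne
      apply hz
      exact ⟨fun h => h.le, fun h => lt_of_le_of_ne h (Ne.symm hne)⟩
    exact Filter.EventuallyEq.inter (Filter.EventuallyEq.refl _ _) h4
  rw [h2] at h1
  rw [sq, ← h1]
  have hE : EMeas (Iso k v (R ∪ refl '' R) η δ Λ) :=
    (hI.1 k v (R ∪ refl '' R) η δ Λ univ MeasurableSet.univ).2
  have hsub : Metric.ball v ρ ⊆ D ∪ N := by
    intro z hz
    by_cases h : z ∈ HP
    · exact Or.inl ⟨hz, h⟩
    · refine Or.inr ⟨?_, ?_⟩
      · rw [Metric.mem_ball] at hz ⊢
        rw [← dist_refl]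
        have h3 := dist_le_refl (refl_HP h) hv
        rw [dist_refl_refl] at h3
        exact h3.trans_lt hz
      · simpa [HP] using h
  rw [← hRes (D ∪ N) (Metric.ball v ρ) (hDm.union hNm) Metric.isOpen_ball.measurableSet hsub
    (by
      refine ((measure_union_le _ _).trans_lt ?_).ne
      exact ENNReal.add_lt_top.2 ⟨hDf.lt_top, hNf.lt_top⟩) _ hE]
  apply PP_mono hB (hDm.union hNm)
  rintro ω hω ⟨hd, hn⟩
  simp only [hQ₂, hQ₁] at hd hn
  obtain ⟨hd1, hd2⟩ := hd
  obtain ⟨hn1, hn2⟩ := hn
  have hpD : ∀ p ∈ ω, p ∈ HP → p ∈ D := by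
    intro p hp hpH
    rcases hω p hp with h | h
    · exact h
    · exact absurd hpH (by simpa [HP] using h.2)
  have hpN : ∀ p ∈ ω, p ∉ HP → p ∈ N := by
    intro p hp hpH
    rcases hω p hp with h | h
    · exact absurd h.2 hpH
    · exact h
  have hdist : ∀ p, p ∉ HP → dist (refl p) v ≤ dist p v := by
    intro p hp
    have h3 := dist_le_refl (refl_HP hp) hv
    rw [dist_refl_refl] at h3
    exact h3
  refine ⟨?_, ?_⟩
  · intro p hp
    rw [mem_res] at hp
    by_cases h : p ∈ HP
    · rw [infDist_union_refl hR hne h]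
      exact hd1 p (mem_res.2 ⟨hp.1, hpD p hp.1 h⟩)
    · rw [← infDist_union_refl' hne, infDist_union_refl hR hne (refl_HP h)]
      apply hn1
      rw [Multiset.mem_map]
      exact ⟨p, mem_res.2 ⟨hp.1, hpN p hp.1 h⟩, rfl⟩
  · intro p hp hpv
    rw [mem_res] at hp
    by_cases h : p ∈ HP
    · rw [infDist_union_refl hR hne h]
      refine (hd2 p (mem_res.2 ⟨hp.1, hpD p hp.1 h⟩) hpv).trans ?_
      rw [cnt_res, cnt_res]
      apply cnt_mono'
      rintro z hz ⟨hz1, hz2⟩
      exact ⟨hz1, hz2.1⟩
    · rw [← infDist_union_refl' hne, infDist_union_refl hR hne (refl_HP h)]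
      have h3 : refl p ∈ (res N ω).map reflE :=
        Multiset.mem_map.2 ⟨p, mem_res.2 ⟨hp.1, hpN p hp.1 h⟩, rfl⟩
      have h4 := hn2 (refl p) h3 ((hdist p h).trans_lt hpv)
      refine h4.trans ?_
      rw [cnt_map, cnt_res, cnt_res]
      apply cnt_mono'
      rintro z hz ⟨hz1, hz2⟩
      have hz1' : dist (refl z) (refl p) < min (dist (refl p) v) (Metric.infDist (refl p) R + η) :=
        hz1
      rw [dist_refl_refl] at hz1'
      have h5 : dist z p < dist p v :=
        (lt_of_lt_of_le hz1' (min_le_left _ _)).trans_le (hdist p h)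
      refine ⟨?_, ?_⟩
      · rw [Metric.mem_ball]
        exact hz1'.trans_le (min_le_min (hdist p h) le_rfl)
      · rw [Metric.mem_ball]
        have := dist_triangle z p v
        linarith

end H63
end KN
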