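import Pool.Agent.Helper89.KN.Spec
import Pool.Agent.Helper89.KN.Base

/-! Swarm KN, part MGEO. -/

open MeasureTheory Set Filter Topology
open scoped ENNReal

noncomputable section

namespace KN
namespace H63

/-- admissible radii -/
def tset (R : Set ℂ) (v : ℂ) (θ : ℝ) : Set ℝ :=
  {t : ℝ | 0 ≤ t ∧ v + t * Complex.exp (θ * Complex.I) ∈ R}

/-- the radial function -/
def tf (R : Set ℂ) (v : ℂ) (θ : ℝ) : ℝ := sSup (tset R v θ)

theorem norm_texp (t θ : ℝ) : ‖(t : ℂ) * Complex.exp (θ * Complex.I)‖ = |t| := by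
  rw [norm_mul, Complex.norm_exp_ofReal_mul_I, mul_one, Complex.norm_real, Real.norm_eq_abs]

section
variable {R : Set ℂ} {v : ℂ} {B : ℝ}

theorem tset_le (hB : ∀ x ∈ R, dist x v ≤ B) {θ t : ℝ} (ht : t ∈ tset R v θ) : t ≤ B := by
  have h1 := hB _ ht.2
  rw [dist_eq_norm, add_sub_cancel_left, norm_texp, abs_of_nonneg ht.1] at h1
  exact h1

theorem tset_zero (hv : v ∈ R) (θ : ℝ) : (0 : ℝ) ∈ tset R v θ := ⟨le_rfl, by simpa using hv⟩

theorem tset_bdd (hB : ∀ x ∈ R, dist x v ≤ B) (θ : ℝ) : BddAbove (tset R v θ) :=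
  ⟨B, fun _ ht => tset_le hB ht⟩

theorem tset_compact (hR : IsClosed R) (hB : ∀ x ∈ R, dist x v ≤ B) (θ : ℝ) :
    IsCompact (tset R v θ) := by
  have h1 : tset R v θ = Icc 0 B ∩ (fun t : ℝ => v + t * Complex.exp (θ * Complex.I)) ⁻¹' R := by
    ext t
    constructor
    · intro ht
      exact ⟨⟨ht.1, tset_le hB ht⟩, ht.2⟩
    · rintro ⟨⟨h0, _⟩, h2⟩
      exact ⟨h0, h2⟩
  rw [h1]
  apply isCompact_Icc.inter_right
  apply hR.preimage
  fun_prop

theorem tf_mem (hR : IsClosed R) (hv : v ∈ R) (hB : ∀ x ∈ R, dist x v ≤ B) (θ : ℝ) :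
    tf R v θ ∈ tset R v θ :=
  (tset_compact hR hB θ).sSup_mem ⟨0, tset_zero hv θ⟩

theorem tf_nonneg (hR : IsClosed R) (hv : v ∈ R) (hB : ∀ x ∈ R, dist x v ≤ B) (θ : ℝ) :
    0 ≤ tf R v θ := (tf_mem hR hv hB θ).1

theorem tf_le (hR : IsClosed R) (hv : v ∈ R) (hB : ∀ x ∈ R, dist x v ≤ B) (θ : ℝ) :
    tf R v θ ≤ B := tset_le hB (tf_mem hR hv hB θ)

theorem polar (x v : ℂ) : v + (dist x v : ℝ) * Complex.exp ((x - v).arg * Complex.I) = x := by
  rw [dist_eq_norm, Complex.norm_mul_exp_arg_mul_I]; ring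

theorem le_tf (hB : ∀ x ∈ R, dist x v ≤ B) {x : ℂ} (hx : x ∈ R) :
    dist x v ≤ tf R v (x - v).arg :=
  le_csSup (tset_bdd hB _) ⟨dist_nonneg, by rw [polar]; exact hx⟩

/-- distance of two points on the same ray -/
theorem dist_ray (v : ℂ) (s t θ : ℝ) :
    dist (v + s * Complex.exp (θ * Complex.I)) (v + t * Complex.exp (θ * Complex.I)) = |s - t| := by
  rw [dist_eq_norm]
  have : v + s * Complex.exp (θ * Complex.I) - (v + t * Complex.exp (θ * Complex.I))
      = ((s - t : ℝ) : ℂ) * Complex.exp (θ * Complex.I) := by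
    push_cast; ring
  rw [this, norm_texp]

theorem infDist_le_tf (hR : IsClosed R) (hv : v ∈ R) (hB : ∀ x ∈ R, dist x v ≤ B) (x : ℂ) :
    Metric.infDist x R ≤ |dist x v - tf R v (x - v).arg| := by
  have h1 := (tf_mem hR hv hB (x - v).arg).2
  have h2 := dist_ray v (dist x v) (tf R v (x - v).arg) (x - v).arg
  rw [polar] at h2
  exact (Metric.infDist_le_dist_of_mem h1).trans h2.le

theorem tf_measurable (hR : IsClosed R) (hv : v ∈ R) (hB : ∀ x ∈ R, dist x v ≤ B) :
    Measurable (tf R v) := by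
  apply measurable_of_Ici
  intro c
  apply IsClosed.measurableSet
  by_cases hc : c ≤ 0
  · have : tf R v ⁻¹' Ici c = univ := by
      ext θ
      simp only [mem_preimage, mem_Ici, mem_univ, iff_true]
      exact hc.trans (tf_nonneg hR hv hB θ)
    rw [this]; exact isClosed_univ
  · push Not at hc
    have h1 : tf R v ⁻¹' Ici c = (Prod.snd : (Icc c B) × ℝ → ℝ) ''
        {p : (Icc c B) × ℝ | v + (p.1 : ℝ) * Complex.exp (p.2 * Complex.I) ∈ R} := by
      ext θ
      simp only [mem_preimage, mem_Ici, mem_image, mem_ofPred_eq, Prod.exists]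
      constructor
      · intro h
        exact ⟨⟨tf R v θ, h, tf_le hR hv hB θ⟩, θ, (tf_mem hR hv hB θ).2, rfl⟩
      · rintro ⟨⟨t, ht1, ht2⟩, θ', h, rfl⟩
        exact ht1.trans (le_csSup (tset_bdd hB _) ⟨hc.le.trans ht1, h⟩)
    rw [h1]
    apply isClosedMap_snd_of_compactSpace
    apply hR.preimage
    fun_prop

end

/-! ### cells -/

theorem cell_eq (h : ℝ) (c : ℤ × ℤ) : Cell h c =
    Complex.measurableEquivRealProd ⁻¹' (Icc (c.1 * h) ((c.1 + 1) * h) ×ˢ
      Icc (c.2 * h) ((c.2 + 1) * h)) := by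
  ext z
  simp only [Cell, mem_ofPred_eq, mem_preimage, mem_prod, mem_Icc,
    Complex.measurableEquivRealProd_apply]
  tauto

theorem cell_volume (h : ℝ) (hh : 0 ≤ h) (c : ℤ × ℤ) :
    volume (Cell h c) = ENNReal.ofReal (h * h) := by
  rw [cell_eq, Complex.volume_preserving_equiv_real_prod.measure_preimage
    (measurableSet_Icc.prod measurableSet_Icc).nullMeasurableSet, Measure.volume_eq_prod,
    Measure.prod_prod, Real.volume_Icc, Real.volume_Icc, ← ENNReal.ofReal_mul (by nlinarith)]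
  congr 1
  ring

theorem cell_closed (h : ℝ) (c : ℤ × ℤ) : IsClosed (Cell h c) := by
  have : Cell h c = {z : ℂ | c.1 * h ≤ z.re} ∩ {z | z.re ≤ (c.1 + 1) * h} ∩
      {z | c.2 * h ≤ z.im} ∩ {z | z.im ≤ (c.2 + 1) * h} := by
    ext z; simp only [Cell, mem_ofPred_eq, mem_inter_iff]; tauto
  rw [this]
  refine ((IsClosed.inter ?_ ?_).inter ?_).inter ?_
  · exact isClosed_le continuous_const Complex.continuous_re
  · exact isClosed_le Complex.continuous_re continuous_const
  · exact isClosed_le continuous_const Complex.continuous_im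
  · exact isClosed_le Complex.continuous_im continuous_const

theorem cellU_closed (h : ℝ) (F : Finset (ℤ × ℤ)) : IsClosed (cellU h F) := by
  unfold cellU
  exact isClosed_biUnion_finset (fun c _ => cell_closed h c)

theorem cell_diam {h : ℝ} (hh : 0 ≤ h) {c : ℤ × ℤ} {x y : ℂ} (hx : x ∈ Cell h c)
    (hy : y ∈ Cell h c) : dist x y ≤ Real.sqrt 2 * h := by
  rw [dist_eq_norm]
  have h1 : ‖x - y‖ ^ 2 = (x.re - y.re) ^ 2 + (x.im - y.im) ^ 2 := by
    rw [← Complex.normSq_eq_norm_sq, Complex.normSq_apply]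
    simp; ring
  obtain ⟨a1, a2, a3, a4⟩ := hx
  obtain ⟨b1, b2, b3, b4⟩ := hy
  have h2 : (x.re - y.re) ^ 2 ≤ h ^ 2 := by
    apply sq_le_sq'
    · linarith
    · linarith
  have h3 : (x.im - y.im) ^ 2 ≤ h ^ 2 := by
    apply sq_le_sq'
    · linarith
    · linarith
  have h4 : 0 ≤ Real.sqrt 2 * h := by positivity
  apply le_of_sq_le_sq _ h4
  rw [h1, mul_pow, Real.sq_sqrt (by norm_num)]
  linarith


/-- the angular function -/
def af (t η δ : ℝ) : ℝ := max (t - η) 0 * (δ + 3 / 4 * max (t - η) 0)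

theorem integral_toReal {f : ℝ → ℝ} {C : ℝ} (hf : Measurable f) (h0 : ∀ θ, 0 ≤ f θ)
    (hC : ∀ θ, f θ ≤ C) :
    IntegrableOn f (Ioc (-Real.pi) Real.pi) ∧
    (∫⁻ θ in Ioc (-Real.pi) Real.pi, ENNReal.ofReal (f θ)).toReal =
      ∫ θ in Ioc (-Real.pi) Real.pi, f θ := by
  have hi : IntegrableOn f (Ioc (-Real.pi) Real.pi) := by
    apply Measure.integrableOn_of_bounded (M := C)
    · exact measure_Ioc_lt_top.ne
    · exact hf.aestronglyMeasurable
    · refine Filter.Eventually.of_forall (fun θ => ?_)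
      rw [Real.norm_eq_abs, abs_of_nonneg (h0 θ)]
      exact hC θ
  refine ⟨hi, ?_⟩
  rw [integral_eq_lintegral_of_nonneg_ae (Filter.Eventually.of_forall h0)
    hf.aestronglyMeasurable.restrict]

theorem num1 {ε τ η m : ℝ} (hε : 0 < ε) (hτε : 10 * ε ≤ τ) (hη_hi : η ≤ 1.4143 * ε)
    (hm0 : 0 ≤ m) (hmlow : ε ^ 2 ≤ 3 * η * τ * m) : 0.16 * ε ≤ (τ - 2 * η) * m := by
  have h5 : 0 ≤ τ * m := mul_nonneg (by linarith) hm0
  have h1 : 0.71 * τ ≤ τ - 2 * η := by linarith
  have h2 : 0.71 * τ * m ≤ (τ - 2 * η) * m := mul_le_mul_of_nonneg_right h1 hm0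
  have h3 : ε ^ 2 ≤ 4.2429 * ε * (τ * m) := by
    have h6 : (3 * η) * (τ * m) ≤ (4.2429 * ε) * (τ * m) :=
      mul_le_mul_of_nonneg_right (by linarith) h5
    linarith
  have h4 : ε ≤ 4.2429 * (τ * m) := by
    have : ε * ε ≤ ε * (4.2429 * (τ * m)) := by linarith
    exact le_of_mul_le_mul_left this hε
  linarith

theorem num2 {δ η ε T T' : ℝ} (hη0 : 0 < η) (hηsq : η ^ 2 = 2 * ε ^ 2)
    (h3 : η ≤ 0.0016 * δ) (hT0 : 0 ≤ T) (hb : T' ≤ 1.99 * δ) (hT' : T' = max (T - η) 0) :
    0.24 * δ * T' - ε ^ 2 ≤ T' * (δ + 3 / 4 * T') / 2 - T ^ 2 / 2 := by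
  rcases le_total (T - η) 0 with h | h
  · have h1 : T' = 0 := by rw [hT', max_eq_right h]
    rw [h1]
    have h2 : T ^ 2 ≤ η ^ 2 := pow_le_pow_left₀ hT0 (by linarith) 2
    rw [hηsq] at h2
    linarith
  · have h1 : T' = T - η := by rw [hT', max_eq_left h]
    have h0 : 0 ≤ T' := by rw [h1]; exact h
    have h2 : T = T' + η := by rw [h1]; ring
    rw [h2]
    have h4 : η * T' ≤ 0.0016 * δ * T' := mul_le_mul_of_nonneg_right h3 h0
    have h5 : T' * T' ≤ 1.99 * δ * T' := mul_le_mul_of_nonneg_right hb h0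
    have h6 : (T' + η) ^ 2 = T' * T' + 2 * (η * T') + 2 * ε ^ 2 := by rw [← hηsq]; ring
    rw [h6]
    have h7 : 0 ≤ δ * T' := mul_nonneg (by nlinarith) h0
    linarith

theorem num3 {ε δ I p : ℝ} (hε : 0 < ε) (hεδ : 900 * ε ≤ δ) (hp : p ≤ 3.15)
    (hI : 0.16 * ε ≤ I) : ε * δ / 100 ≤ 0.24 * δ * I - 2 * p * ε ^ 2 := by
  have h8 : 2 * p * ε ^ 2 ≤ 0.007 * (ε * δ) := by
    have h1 : 2 * p * ε ^ 2 ≤ 6.3 * ε ^ 2 := by
      apply mul_le_mul_of_nonneg_right (by linarith) (sq_nonneg _)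
    have h2 : ε * (900 * ε) ≤ ε * δ := mul_le_mul_of_nonneg_left hεδ hε.le
    linarith
  have h9 : 0.24 * δ * (0.16 * ε) ≤ 0.24 * δ * I :=
    mul_le_mul_of_nonneg_left hI (by linarith)
  have h10 : 0 ≤ ε * δ := mul_nonneg hε.le (by linarith)
  linarith

theorem mgeo_thm (hRM : S_RM) : S_MGEO := by
  intro v u F ε δ hε hεδ hv hu hdiam hvu
  set R := cellU ε F with hRdef
  have hRc : IsClosed R := cellU_closed ε F
  have hδ : 0 < δ := by linarith
  have hB : ∀ x ∈ R, dist x v ≤ 1.99 * δ := fun x hx => hdiam x hx v hv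
  set η : ℝ := Real.sqrt 2 * ε with hη
  have hs2 : Real.sqrt 2 ^ 2 = 2 := Real.sq_sqrt (by norm_num)
  have hs0 : 0 ≤ Real.sqrt 2 := Real.sqrt_nonneg _
  have hs_lo : 1.4142 ≤ Real.sqrt 2 := by
    apply Real.le_sqrt_of_sq_le; norm_num
  have hs_hi : Real.sqrt 2 ≤ 1.4143 := by
    rw [Real.sqrt_le_left (by norm_num)]; norm_num
  have hη0 : 0 < η := by positivity
  have hη_lo : 1.4142 * ε ≤ η := by rw [hη]; nlinarith
  have hη_hi : η ≤ 1.4143 * ε := by rw [hη]; nlinarith
  have hηsq : η ^ 2 = 2 * ε ^ 2 := by rw [hη, mul_pow, hs2]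
  set T : ℝ → ℝ := tf R v with hT
  have hTm : Measurable T := tf_measurable hRc hv hB
  have hT0 : ∀ θ, 0 ≤ T θ := tf_nonneg hRc hv hB
  have hTB : ∀ θ, T θ ≤ 1.99 * δ := tf_le hRc hv hB
  set T' : ℝ → ℝ := fun θ => max (T θ - η) 0 with hT'
  have hT'm : Measurable T' := (hTm.sub_const η).max measurable_const
  have hT'0 : ∀ θ, 0 ≤ T' θ := fun θ => le_max_right _ _
  have hT'T : ∀ θ, T' θ ≤ T θ := fun θ => max_le (by linarith) (hT0 θ)
  have hT'B : ∀ θ, T' θ ≤ 1.99 * δ := fun θ => (hT'T θ).trans (hTB θ)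
  set a : ℝ → ℝ := fun θ => T' θ * (δ + 3 / 4 * T' θ) with ha
  have ham : Measurable a := hT'm.mul ((hT'm.const_mul _).const_add _)
  have ha0 : ∀ θ, 0 ≤ a θ := fun θ => by
    have := hT'0 θ
    simp only [ha]; positivity
  have ha5 : ∀ θ, a θ ≤ 5 * δ ^ 2 := fun θ => by
    have h1 := hT'0 θ
    have h2 := hT'B θ
    simp only [ha]
    nlinarith
  refine ⟨a, ham, ha0, ha5, ?_, ?_, ?_⟩
  · -- (A)
    intro x hx
    set s := dist x v with hs
    set t := T (x - v).arg with ht
    have hs0' : 0 ≤ s := dist_nonneg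
    have hd : Metric.infDist x R ≤ |s - t| := infDist_le_tf hRc hv hB x
    have hds : Metric.infDist x R ≤ s := Metric.infDist_le_dist_of_mem hv
    have htB : t ≤ 1.99 * δ := hTB _
    have hst : t < s := by
      by_contra hcon
      push Not at hcon
      rw [abs_of_nonpos (by linarith)] at hd
      linarith
    rw [abs_of_pos (by linarith)] at hd
    have ht' : T' (x - v).arg = max (t - η) 0 := rfl
    set t' := T' (x - v).arg with ht'd
    have h1 : min s (Metric.infDist x R + η) ≤ s - t' := by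
      rw [ht']
      rcases le_total (t - η) 0 with h | h
      · rw [max_eq_right h]; simp
      · rw [max_eq_left h]
        exact (min_le_right _ _).trans (by linarith)
    have h2 : 0 ≤ min s (Metric.infDist x R + η) :=
      le_min hs0' (add_nonneg Metric.infDist_nonneg hη0.le)
    have h3 : t' ≤ t := hT'T _
    have h4 : 0 ≤ t' := hT'0 _
    have h5 : ((s + min s (Metric.infDist x R + η)) / 2) ^ 2 ≤ (s - t' / 2) ^ 2 := by
      apply pow_le_pow_left₀ (by positivity)
      linarith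
    have h6 : t + δ ≤ s := by linarith
    have h7 : a (x - v).arg = t' * (δ + 3 / 4 * t') := rfl
    rw [h7]
    nlinarith
  · -- (B)
    intro x hx
    have hx' : dist x v ^ 2 ≤ a (x - v).arg := hx
    set s := dist x v with hs
    set t := T (x - v).arg with ht
    have hs0' : 0 ≤ s := dist_nonneg
    have hd : Metric.infDist x R ≤ |s - t| := infDist_le_tf hRc hv hB x
    have hds : Metric.infDist x R ≤ s := Metric.infDist_le_dist_of_mem hv
    have htB : t ≤ 1.99 * δ := hTB _
    set t' := T' (x - v).arg with ht'd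
    have h3 : t' ≤ t := hT'T _
    have h4 : 0 ≤ t' := hT'0 _
    have h7 : a (x - v).arg = t' * (δ + 3 / 4 * t') := rfl
    rw [h7] at hx'
    rcases le_total s t with h | h
    · rw [abs_of_nonpos (by linarith)] at hd
      linarith
    · rw [abs_of_nonneg (by linarith)] at hd
      have h8 : s < t' + δ := by
        apply lt_of_pow_lt_pow_left₀ 2 (by positivity)
        nlinarith
      linarith
  · -- (C)
    -- the star set of `T ^ 2`
    have hT2 : ∀ θ, T θ ^ 2 ≤ (1.99 * δ) ^ 2 := fun θ => pow_le_pow_left₀ (hT0 θ) (hTB θ) 2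
    obtain ⟨-, -, hvol1⟩ := hRM v (fun θ => T θ ^ 2) _ (hTm.pow_const 2) (fun θ => sq_nonneg _) hT2
    obtain ⟨-, -, hvola⟩ := hRM v a _ ham ha0 ha5
    have hsub : R ⊆ starSet v (fun θ => T θ ^ 2) := by
      intro x hx
      show dist x v ^ 2 ≤ T (x - v).arg ^ 2
      exact pow_le_pow_left₀ dist_nonneg (le_tf hB hx) 2
    obtain ⟨hi1, he1⟩ := integral_toReal (f := fun θ => T θ ^ 2 / 2) (C := (1.99 * δ) ^ 2)
      ((hTm.pow_const 2).div_const 2) (fun θ => by positivity)
      (fun θ => by have := hT2 θ; have := sq_nonneg (T θ); linarith)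
    obtain ⟨hia, hea⟩ := integral_toReal (f := fun θ => a θ / 2) (C := 5 * δ ^ 2)
      (ham.div_const 2) (fun θ => by have := ha0 θ; positivity)
      (fun θ => by have := ha5 θ; have := ha0 θ; linarith)
    obtain ⟨hiT, heT⟩ := integral_toReal (f := T') (C := 1.99 * δ) hT'm hT'0 hT'B
    have hfin : volume (starSet v (fun θ => T θ ^ 2)) ≠ ⊤ := by
      rw [hvol1]
      have := hi1.lintegral_lt_top
      exact this.ne
    have hR1 : (volume R).toReal ≤ ∫ θ in Ioc (-Real.pi) Real.pi, T θ ^ 2 / 2 := by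
      rw [← he1, ← hvol1]
      exact ENNReal.toReal_mono hfin (measure_mono hsub)
    have hA1 : (volume (starSet v a)).toReal = ∫ θ in Ioc (-Real.pi) Real.pi, a θ / 2 := by
      rw [← hea, ← hvola]
    -- the cell of `u`
    obtain ⟨c, hcF, huc⟩ : ∃ c ∈ F, u ∈ Cell ε c := by
      rw [hRdef] at hu
      simpa [cellU] using hu
    have hcR : Cell ε c ⊆ R := by
      rw [hRdef]
      intro x hx
      simp only [cellU, mem_iUnion]
      exact ⟨c, hcF, hx⟩
    set τ := dist u v with hτ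
    set E : Set ℝ := {θ | τ - η ≤ T θ} with hE
    have hEm : MeasurableSet E := measurableSet_le measurable_const hTm
    classical
    set a1 : ℝ → ℝ := E.indicator (fun _ => (τ + η) ^ 2) with ha1
    set a2 : ℝ → ℝ := E.indicator (fun _ => (τ - 2 * η) ^ 2) with ha2
    have ha1m : Measurable a1 := measurable_const.indicator hEm
    have ha2m : Measurable a2 := measurable_const.indicator hEm
    have ha1n : ∀ θ, 0 ≤ a1 θ := fun θ => indicator_nonneg (fun _ _ => sq_nonneg _) _
    have ha2n : ∀ θ, 0 ≤ a2 θ := fun θ => indicator_nonneg (fun _ _ => sq_nonneg _) _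
    have ha1b : ∀ θ, a1 θ ≤ (τ + η) ^ 2 := fun θ =>
      indicator_le_self' (fun _ _ => sq_nonneg _) θ
    have ha2b : ∀ θ, a2 θ ≤ (τ - 2 * η) ^ 2 := fun θ =>
      indicator_le_self' (fun _ _ => sq_nonneg _) θ
    obtain ⟨-, -, hv1⟩ := hRM v a1 _ ha1m ha1n ha1b
    obtain ⟨hm2, -, hv2⟩ := hRM v a2 _ ha2m ha2n ha2b
    obtain ⟨hj1, hk1⟩ := integral_toReal (f := fun θ => a1 θ / 2) (C := (τ + η) ^ 2)
      (ha1m.div_const 2) (fun θ => by have := ha1n θ; positivity)
      (fun θ => by have := ha1n θ; have := ha1b θ; linarith)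
    obtain ⟨hj2, hk2⟩ := integral_toReal (f := fun θ => a2 θ / 2) (C := (τ - 2 * η) ^ 2)
      (ha2m.div_const 2) (fun θ => by have := ha2n θ; positivity)
      (fun θ => by have := ha2n θ; have := ha2b θ; linarith)
    have hτε : 10 * ε ≤ τ := hvu
    have hτη : 0 ≤ τ - 2 * η := by linarith
    -- distances in the cell
    have hcell : ∀ x ∈ Cell ε c, τ - η ≤ dist x v ∧ dist x v ≤ τ + η := by
      intro x hx
      have h1 : dist x u ≤ η := cell_diam hε.le hx huc
      have h2 := dist_triangle x u v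
      have h3 := dist_triangle u x v
      rw [dist_comm u x] at h3
      constructor <;> linarith
    have hcE : ∀ x ∈ Cell ε c, (x - v).arg ∈ E := by
      intro x hx
      exact (hcell x hx).1.trans (le_tf hB (hcR hx))
    have hdisj : Disjoint (starSet v a2) (Cell ε c) := by
      rw [Set.disjoint_left]
      intro x hx hxc
      have h1 : dist x v ^ 2 ≤ a2 (x - v).arg := hx
      have h2 : a2 (x - v).arg = (τ - 2 * η) ^ 2 := indicator_of_mem (hcE x hxc) _
      rw [h2] at h1
      have h3 := (hcell x hxc).1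
      have h4 : τ - 2 * η < dist x v := by linarith
      have h5 : (τ - 2 * η) ^ 2 < dist x v ^ 2 := pow_lt_pow_left₀ h4 hτη (by norm_num)
      linarith
    have hunion : starSet v a2 ∪ Cell ε c ⊆ starSet v a1 := by
      rintro x (hx | hx)
      · have h1 : dist x v ^ 2 ≤ a2 (x - v).arg := hx
        show dist x v ^ 2 ≤ a1 (x - v).arg
        refine h1.trans ?_
        apply indicator_le_indicator
        apply pow_le_pow_left₀ hτη
        linarith
      · show dist x v ^ 2 ≤ a1 (x - v).arg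
        have h2 : a1 (x - v).arg = (τ + η) ^ 2 := indicator_of_mem (hcE x hx) _
        rw [h2]
        exact pow_le_pow_left₀ dist_nonneg (hcell x hx).2 2
    have hvolc : volume (Cell ε c) = ENNReal.ofReal (ε * ε) := cell_volume ε hε.le c
    have hmeas : volume (starSet v a2) + volume (Cell ε c) ≤ volume (starSet v a1) := by
      rw [← measure_union hdisj (cell_closed ε c).measurableSet]
      exact measure_mono hunion
    have hfin1 : volume (starSet v a1) ≠ ⊤ := by
      rw [hv1]; exact hj1.lintegral_lt_top.ne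
    have hfin2 : volume (starSet v a2) ≠ ⊤ := by
      rw [hv2]; exact hj2.lintegral_lt_top.ne
    have hreal : (volume (starSet v a2)).toReal + ε * ε ≤ (volume (starSet v a1)).toReal := by
      have h1 := ENNReal.toReal_mono hfin1 hmeas
      rw [ENNReal.toReal_add hfin2 (by rw [hvolc]; exact ENNReal.ofReal_ne_top), hvolc,
        ENNReal.toReal_ofReal (by positivity)] at h1
      exact h1
    set m : ℝ := (volume.restrict (Ioc (-Real.pi) Real.pi)).real E with hm
    have hint1 : (volume (starSet v a1)).toReal = (τ + η) ^ 2 / 2 * m := by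
      rw [hv1, hk1]
      have : (fun θ => a1 θ / 2) = E.indicator (fun _ => (τ + η) ^ 2 / 2) := by
        funext θ
        by_cases h : θ ∈ E
        · simp [ha1, h]
        · simp [ha1, h]
      rw [this, integral_indicator_const _ hEm, smul_eq_mul, mul_comm]
    have hint2 : (volume (starSet v a2)).toReal = (τ - 2 * η) ^ 2 / 2 * m := by
      rw [hv2, hk2]
      have : (fun θ => a2 θ / 2) = E.indicator (fun _ => (τ - 2 * η) ^ 2 / 2) := by
        funext θ
        by_cases h : θ ∈ E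
        · simp [ha2, h]
        · simp [ha2, h]
      rw [this, integral_indicator_const _ hEm, smul_eq_mul, mul_comm]
    have hm0 : 0 ≤ m := measureReal_nonneg
    rw [hint1, hint2] at hreal
    have hmlow : ε ^ 2 ≤ 3 * η * τ * m := by nlinarith
    -- lower bound of the integral of T'
    have hIT : (τ - 2 * η) * m ≤ ∫ θ in Ioc (-Real.pi) Real.pi, T' θ := by
      have h1 : ∫ θ in Ioc (-Real.pi) Real.pi, E.indicator (fun _ => τ - 2 * η) θ
          = (τ - 2 * η) * m := by
        rw [integral_indicator_const _ hEm, smul_eq_mul, mul_comm]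
      rw [← h1]
      apply integral_mono
      · exact (integrable_const _).indicator hEm
      · exact hiT
      · intro θ
        by_cases h : θ ∈ E
        · rw [indicator_of_mem h]
          have : τ - η ≤ T θ := h
          exact le_max_of_le_left (by linarith)
        · rw [indicator_of_notMem h]
          exact hT'0 θ
    have hIT2 : 0.16 * ε ≤ ∫ θ in Ioc (-Real.pi) Real.pi, T' θ :=
      (num1 hε hτε hη_hi hm0 hmlow).trans hIT
    -- pointwise inequality
    have hpt : ∀ θ, 0.24 * δ * T' θ - ε ^ 2 ≤ a θ / 2 - T θ ^ 2 / 2 := fun θ =>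
      num2 hη0 hηsq (by linarith) (hT0 θ) (hT'B θ) rfl
    have hfinal : ∫ θ in Ioc (-Real.pi) Real.pi, (0.24 * δ * T' θ - ε ^ 2) ≤
        ∫ θ in Ioc (-Real.pi) Real.pi, (a θ / 2 - T θ ^ 2 / 2) := by
      apply integral_mono
      · exact (hiT.const_mul _).sub (integrable_const _)
      · exact hia.sub hi1
      · exact hpt
    rw [integral_sub hia hi1, integral_sub (hiT.const_mul _) (integrable_const _),
      integral_const_mul, integral_const] at hfinal
    have hpi : (volume.restrict (Ioc (-Real.pi) Real.pi)).real univ = 2 * Real.pi := by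
      rw [measureReal_restrict_apply MeasurableSet.univ, univ_inter, Real.volume_real_Ioc_of_le
        (by linarith [Real.pi_pos])]
      ring
    rw [hpi, smul_eq_mul] at hfinal
    rw [hA1]
    have hfin3 := num3 hε hεδ Real.pi_lt_d2.le hIT2
    linarith

end H63
end KN
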