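import Pool.Agent.Helper63.KN.Common
import Pool.Agent.Helper63.KN.MGEO

/-! Swarm KN, part MIN. -/

open MeasureTheory Set Filter Topology
open scoped ENNReal

noncomputable section

namespace KN
namespace H63

theorem cell_bounded (h : ℝ) (c : ℤ × ℤ) : Bornology.IsBounded (Cell h c) := by
  have h1 : Cell h c ⊆ Complex.measurableEquivRealProd ⁻¹' (Icc (c.1 * h) ((c.1 + 1) * h) ×ˢ
      Icc (c.2 * h) ((c.2 + 1) * h)) := (cell_eq h c).le
  rw [Metric.isBounded_iff_subset_closedBall 0]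
  refine ⟨|c.1 * h| + |(c.1 + 1) * h| + (|c.2 * h| + |(c.2 + 1) * h|), ?_⟩
  rintro z ⟨a1, a2, a3, a4⟩
  rw [mem_closedBall_zero_iff]
  refine (Complex.norm_le_abs_re_add_abs_im z).trans ?_
  have e1 : |z.re| ≤ |c.1 * h| + |(c.1 + 1) * h| := by
    rw [abs_le]
    constructor
    · have := neg_abs_le ((c.1 : ℝ) * h); have := abs_nonneg (((c.1 : ℝ) + 1) * h); linarith
    · have := le_abs_self (((c.1 : ℝ) + 1) * h); have := abs_nonneg ((c.1 : ℝ) * h); linarith
  have e2 : |z.im| ≤ |c.2 * h| + |(c.2 + 1) * h| := by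
    rw [abs_le]
    constructor
    · have := neg_abs_le ((c.2 : ℝ) * h); have := abs_nonneg (((c.2 : ℝ) + 1) * h); linarith
    · have := le_abs_self (((c.2 : ℝ) + 1) * h); have := abs_nonneg ((c.2 : ℝ) * h); linarith
  linarith

theorem cellU_compact (h : ℝ) (F : Finset (ℤ × ℤ)) : IsCompact (cellU h F) := by
  unfold cellU
  refine F.isCompact_biUnion (fun c _ => ?_)
  exact Metric.isCompact_of_isClosed_isBounded (cell_closed h c) (cell_bounded h c)

/-- the set of `v` far from some point of a compact set is closed -/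
theorem far_closed {K : Set ℂ} (hK : IsCompact K) (s : ℝ) :
    IsClosed {v : ℂ | ∃ u ∈ K, s ≤ dist u v} := by
  have h1 : {v : ℂ | ∃ u ∈ K, s ≤ dist u v} = (Prod.snd : K × ℂ → ℂ) ''
      {p : K × ℂ | s ≤ dist (p.1 : ℂ) p.2} := by
    ext v
    simp only [mem_ofPred_eq, mem_image, Prod.exists]
    constructor
    · rintro ⟨u, hu, h⟩
      exact ⟨⟨u, hu⟩, v, h, rfl⟩
    · rintro ⟨⟨u, hu⟩, v', h, rfl⟩
      exact ⟨u, hu, h⟩
  rw [h1]
  have : CompactSpace K := isCompact_iff_compactSpace.1 hK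
  apply isClosedMap_snd_of_compactSpace
  exact isClosed_le continuous_const (by fun_prop)

theorem min_thm (hB : S_BASIC) (hV : S_VOID) (hRes : S_RES) (hI : S_ISOM) (hM : S_MECKE)
    (hMB : S_MB) : S_MIN := by
  intro k n ε δ Λ Λ' c₀ F hn hε hεδ hdiam hΛ hΛ' hΛΛ
  set R := cellU ε F with hR
  have hRm : MeasurableSet R := (cellU_closed ε F).measurableSet
  set G : Set ℂ := (Inn n (2 * Λ') ∩ Cell ε c₀) ∩ (R ∩ {v : ℂ | ∃ u ∈ R, 10 * ε ≤ dist u v}) with hG
  have hGm : MeasurableSet G := by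
    refine MeasurableSet.inter ((Inn_measurable n (by linarith)).inter
      (cell_closed ε c₀).measurableSet) (hRm.inter ?_)
    exact (far_closed (cellU_compact ε F) _).measurableSet
  set Q : ℂ → Multiset ℂ → Prop := fun v ω => v ∈ G ∧
    Iso k v R (Real.sqrt 2 * ε) δ Λ' (res (Metric.ball v (2 * Λ') \ R) ω) with hQ
  have hQm : JMeas Q := hI.2.1 k R (Real.sqrt 2 * ε) δ Λ' (2 * Λ') G hRm hGm
  have hSm := Sq_measurable n
  have hSf := Sq_finite hn.le
  have h1 : PP (Sq n) (EvM k (Inn n (2 * Λ') ∩ Cell ε c₀) F R ε δ Λ') ≤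
      PP (Sq n) (fun ω => ∃ z rest, ω = z ::ₘ rest ∧ Q z rest) := by
    apply PP_mono hB hSm
    rintro ω hω ⟨v, rest, rfl, hvW, hvR, hu, hiso⟩
    exact ⟨v, rest, rfl, ⟨hvW, hvR, hu⟩, hiso⟩
  refine h1.trans ((hM (Sq n) hSm hSf Q hQm).trans ?_)
  have h2 : ∀ z, PP (Sq n) (Q z) ≤ (Cell ε c₀).indicator
      (fun _ => ENNReal.ofReal (Real.exp (-(ε * δ / 100))) * pk k Λ) z := by
    intro z
    by_cases hz : z ∈ G
    · rw [indicator_of_mem hz.1.2]
      obtain ⟨u, huR, hu⟩ := hz.2.2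
      have hsub : Metric.ball z (2 * Λ') ⊆ Sq n :=
        Metric.ball_subset_closedBall.trans hz.1.1
      have hE : EMeas (Iso k z R (Real.sqrt 2 * ε) δ Λ') :=
        (hI.1 k z R (Real.sqrt 2 * ε) δ Λ' univ MeasurableSet.univ).2
      have h3 : PP (Sq n) (Q z) = PP (Metric.ball z (2 * Λ') \ R)
          (Iso k z R (Real.sqrt 2 * ε) δ Λ') := by
        rw [← hRes (Sq n) (Metric.ball z (2 * Λ') \ R) hSm
          (Metric.isOpen_ball.measurableSet.diff hRm) (sdiff_subset.trans hsub) hSf _ hE]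
        apply PP_congr hB hSm
        intro ω _
        simp only [hQ]
        exact ⟨fun h => h.2, fun h => ⟨hz, h⟩⟩
      rw [h3]
      have hbf : volume (Metric.ball z (2 * Λ')) ≠ ⊤ := measure_ball_lt_top.ne
      have h4 := void_bound hB hV Metric.isOpen_ball.measurableSet hRm hbf hE
      have h5 := hMB k z u F ε δ Λ Λ' hε hεδ hz.2.1 huR hdiam hu hΛ hΛ' hΛΛ
      have h6 : (volume (Metric.ball z (2 * Λ') ∩ R)).toReal ≤ (volume R).toReal := by
        apply ENNReal.toReal_mono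
        · exact (cellU_compact ε F).measure_lt_top.ne
        · exact measure_mono inter_subset_right
      exact exp_cancel (c := ε * δ / 100) (by linarith) (h4.trans h5)
    · rw [PP_false (Sq n) (Q := Q z) (fun ω h => hz h.1)]
      exact zero_le
  calc ∫⁻ z in Sq n, PP (Sq n) (Q z)
      ≤ ∫⁻ z, PP (Sq n) (Q z) := setLIntegral_le_lintegral _ _
    _ ≤ ∫⁻ z, (Cell ε c₀).indicator
      (fun _ => ENNReal.ofReal (Real.exp (-(ε * δ / 100))) * pk k Λ) z := lintegral_mono h2
    _ = ENNReal.ofReal (Real.exp (-(ε * δ / 100))) * pk k Λ * volume (Cell ε c₀) := by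
        rw [lintegral_indicator_const (cell_closed ε c₀).measurableSet]
    _ = ENNReal.ofReal (ε ^ 2 * Real.exp (-(ε * δ / 100))) * pk k Λ := by
        rw [cell_volume ε hε.le, ← sq, ENNReal.ofReal_mul (sq_nonneg ε)]
        ring

end H63
end KN
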