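import Pool.Agent.Helper63.KN.MIN
import Pool.Agent.Helper63.KN.DB

/-! Swarm KN, part MLE. -/

open MeasureTheory Set Filter Topology
open scoped ENNReal

noncomputable section

namespace KN
namespace H63

theorem ball_measurable' (v : ℂ) (s : ℝ) : MeasurableSet (Metric.ball v s) :=
  Metric.isOpen_ball.measurableSet

theorem refl_image_Cell (ε : ℝ) (c : ℤ × ℤ) : refl '' Cell ε c = Cell ε (-c.1 - 1, c.2) := by
  ext z
  constructor
  · rintro ⟨w, ⟨h1, h2, h3, h4⟩, rfl⟩
    simp only [Cell, mem_ofPred_eq, refl]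
    push_cast
    refine ⟨by linarith, by linarith, h3, h4⟩
  · rintro ⟨h1, h2, h3, h4⟩
    simp only at h1 h2
    push_cast at h1 h2
    refine ⟨refl z, ⟨?_, ?_, h3, h4⟩, refl_refl z⟩
    · simp only [refl]; linarith
    · simp only [refl]; linarith

open Classical in
theorem cellU_union_refl (ε : ℝ) (F : Finset (ℤ × ℤ)) :
    cellU ε F ∪ refl '' cellU ε F = cellU ε (F ∪ F.image (fun c => (-c.1 - 1, c.2))) := by
  unfold cellU
  rw [image_iUnion₂]
  ext z
  simp only [mem_union, mem_iUnion, Finset.mem_union, Finset.mem_image, exists_prop]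
  constructor
  · rintro (⟨c, hc, hz⟩ | ⟨c, hc, hz⟩)
    · exact ⟨c, Or.inl hc, hz⟩
    · rw [refl_image_Cell] at hz
      exact ⟨_, Or.inr ⟨c, hc, rfl⟩, hz⟩
  · rintro ⟨c, hc | ⟨c', hc', rfl⟩, hz⟩
    · exact Or.inl ⟨c, hc, hz⟩
    · refine Or.inr ⟨c', hc', ?_⟩
      rw [refl_image_Cell]; exact hz

theorem cellU_HP {ε : ℝ} (hε : 0 ≤ ε) {F : Finset (ℤ × ℤ)} (hF : ∀ c ∈ F, 0 ≤ c.1) :
    cellU ε F ⊆ HP := by
  intro z hz
  simp only [cellU, mem_iUnion, exists_prop] at hz
  obtain ⟨c, hc, h1, -⟩ := hz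
  have h2 : (0 : ℝ) ≤ c.1 := by exact_mod_cast hF c hc
  show 0 ≤ z.re
  have : 0 ≤ (c.1 : ℝ) * ε := mul_nonneg h2 hε
  linarith

theorem refl_image_eq_preimage (R : Set ℂ) : refl '' R = reflE ⁻¹' R := by
  ext z
  constructor
  · rintro ⟨w, hw, rfl⟩
    show refl (refl w) ∈ R
    rw [refl_refl]; exact hw
  · intro hz
    exact ⟨refl z, hz, refl_refl z⟩

/-- the area doubles -/
theorem volume_union_refl {R : Set ℂ} (hR : R ⊆ HP) (hRm : MeasurableSet R) :
    volume (R ∪ refl '' R) = 2 * volume R := by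
  have h1 : volume (refl '' R) = volume R := by
    rw [refl_image_eq_preimage]
    exact refl_measurePreserving.measure_preimage hRm.nullMeasurableSet
  have hm : MeasurableSet (refl '' R) := by
    rw [refl_image_eq_preimage]
    exact reflE.measurable hRm
  have h2 : AEDisjoint volume R (refl '' R) := by
    refine measure_mono_null ?_ axis_null
    rintro z ⟨hz1, ⟨w, hw, rfl⟩⟩
    have e1 : 0 ≤ (refl w).re := hR hz1
    have e2 : 0 ≤ w.re := hR hw
    show (refl w).re = 0
    simp only [refl] at e1 ⊢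
    linarith
  rw [measure_union₀ hm.nullMeasurableSet h2, h1, two_mul]

/-- from a bound for squares to a bound with a square root -/
theorem sqrt_bound {P q : ℝ≥0∞} {b : ℝ} (h : P ^ 2 ≤ ENNReal.ofReal (Real.exp (-(2 * b))) * q) :
    P ≤ ENNReal.ofReal (Real.exp (-b)) * q ^ (1 / 2 : ℝ) := by
  have h1 : P = (P ^ 2) ^ (1 / 2 : ℝ) := by
    rw [← ENNReal.rpow_natCast, ← ENNReal.rpow_mul]
    norm_num
  rw [h1]
  refine (ENNReal.rpow_le_rpow h (by norm_num)).trans (le_of_eq ?_)
  rw [ENNReal.mul_rpow_of_nonneg _ _ (by norm_num)]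
  congr 1
  rw [ENNReal.ofReal_rpow_of_pos (Real.exp_pos _), ← Real.exp_mul]
  congr 2
  ring

theorem mle_thm (hB : S_BASIC) (hV : S_VOID) (hRes : S_RES) (hI : S_ISOM) (hM : S_MECKE)
    (hMB : S_MB) (hDB : S_DB) : S_MLE := by
  classical
  intro k n ε δ Λ Λ' c₀ F hn hε hεδ hF hdiam hΛ hΛ' hΛΛ hΛn
  set R := cellU ε F with hR
  have hRm : MeasurableSet R := (cellU_closed ε F).measurableSet
  have hRHP : R ⊆ HP := cellU_HP hε.le hF
  set R' := R ∪ refl '' R with hR'
  set F' := F ∪ F.image (fun c => (-c.1 - 1, c.2)) with hF'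
  have hR'F : R' = cellU ε F' := cellU_union_refl ε F
  set G : Set ℂ := (Lef n (2 * Λ') ∩ Cell ε c₀) ∩ (R ∩ {v : ℂ | ∃ u ∈ R', 10 * ε ≤ dist u v})
    with hG
  have hGm : MeasurableSet G := by
    refine MeasurableSet.inter ((Lef_measurable n _).inter
      (cell_closed ε c₀).measurableSet) (hRm.inter ?_)
    rw [hR'F]
    exact (far_closed (cellU_compact ε F') _).measurableSet
  set Q : ℂ → Multiset ℂ → Prop := fun v ω => v ∈ G ∧
    Iso k v R (Real.sqrt 2 * ε) δ Λ' (res (Metric.ball v (2 * Λ') \ R) ω) with hQ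
  have hQm : JMeas Q := hI.2.1 k R (Real.sqrt 2 * ε) δ Λ' (2 * Λ') G hRm hGm
  have hSm := Sq_measurable n
  have hSf := Sq_finite hn.le
  have h1 : PP (Sq n) (EvM k (Lef n (2 * Λ') ∩ Cell ε c₀) F R' ε δ Λ') ≤
      PP (Sq n) (fun ω => ∃ z rest, ω = z ::ₘ rest ∧ Q z rest) := by
    apply PP_mono hB hSm
    rintro ω hω ⟨v, rest, rfl, hvW, hvR, hu, hiso⟩
    exact ⟨v, rest, rfl, ⟨hvW, hvR, hu⟩, hiso⟩
  refine h1.trans ((hM (Sq n) hSm hSf Q hQm).trans ?_)
  have h2 : ∀ z, PP (Sq n) (Q z) ≤ (Cell ε c₀).indicator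
      (fun _ => ENNReal.ofReal (Real.exp (-(ε * δ / 200))) * (pk k Λ) ^ (1 / 2 : ℝ)) z := by
    intro z
    by_cases hz : z ∈ G
    · rw [indicator_of_mem hz.1.2]
      obtain ⟨u, huR, hu⟩ := hz.2.2
      have hzR : z ∈ R := hz.2.1
      set D : Set ℂ := Metric.ball z (2 * Λ') ∩ HP with hD
      have hDm : MeasurableSet D := (ball_measurable' _ _).inter HP_measurable
      have hball : Metric.ball z (2 * Λ') ∩ Sq n = D :=
        ball_Lef (by linarith) hz.1.1
      have hsub : D ⊆ Sq n := by rw [← hball]; exact inter_subset_right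
      have hE : EMeas (Iso k z R (Real.sqrt 2 * ε) δ Λ') :=
        (hI.1 k z R (Real.sqrt 2 * ε) δ Λ' univ MeasurableSet.univ).2
      have h3 : PP (Sq n) (Q z) = PP (D \ R)
          (Iso k z R (Real.sqrt 2 * ε) δ Λ') := by
        rw [← hRes (Sq n) (D \ R) hSm
          (hDm.diff hRm) (sdiff_subset.trans hsub) hSf _ hE]
        apply PP_congr hB hSm
        intro ω hω
        simp only [hQ]
        have h5 : res (Metric.ball z (2 * Λ') \ R) ω = res (D \ R) ω := by
          apply res_congr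
          intro y hy
          constructor
          · rintro ⟨h6, h7⟩
            exact ⟨by rw [← hball]; exact ⟨h6, hω y hy⟩, h7⟩
          · rintro ⟨h6, h7⟩
            exact ⟨h6.1, h7⟩
        rw [h5]
        exact ⟨fun h => h.2, fun h => ⟨hz, h⟩⟩
      rw [h3]
      have hbf : volume D ≠ ⊤ := ((measure_mono inter_subset_left).trans_lt
        (measure_ball_lt_top (μ := volume) (x := z) (r := 2 * Λ'))).ne
      have h4 := void_bound hB hV hDm hRm hbf hE
      have hz' : z ∈ HP := hRHP hzR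
      have h5 := hDB k z R (Real.sqrt 2 * ε) δ Λ' (2 * Λ') hz' hRHP (cellU_closed ε F)
        ⟨z, hzR⟩ hΛ' le_rfl
      have h6 : PP (Metric.ball z (2 * Λ')) (Iso k z (R ∪ refl '' R) (Real.sqrt 2 * ε) δ Λ') ≤
          ENNReal.ofReal (Real.exp (-(2 * ((volume R).toReal + ε * δ / 200)))) * pk k Λ := by
        have hh := hMB k z u F' ε δ Λ Λ' hε hεδ (by rw [← hR'F]; exact Or.inl hzR)
          (by rw [← hR'F]; exact huR) (by rw [← hR'F]; exact hdiam) hu hΛ hΛ' hΛΛ
        rw [← hR'F] at hh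
        have hvol : (volume R').toReal = 2 * (volume R).toReal := by
          rw [hR', volume_union_refl hRHP hRm, ENNReal.toReal_mul]; simp
        rw [hvol] at hh
        refine hh.trans (le_of_eq ?_)
        congr 3
        ring
      have h7 := sqrt_bound (h5.trans h6)
      have h8 : (volume (D ∩ R)).toReal ≤ (volume R).toReal := by
        apply ENNReal.toReal_mono
        · exact (cellU_compact ε F).measure_lt_top.ne
        · exact measure_mono inter_subset_right
      exact exp_cancel (c := ε * δ / 200) (by linarith) (h4.trans h7)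
    · rw [PP_false (Sq n) (Q := Q z) (fun ω h => hz h.1)]
      exact zero_le
  calc ∫⁻ z in Sq n, PP (Sq n) (Q z)
      ≤ ∫⁻ z, PP (Sq n) (Q z) := setLIntegral_le_lintegral _ _
    _ ≤ ∫⁻ z, (Cell ε c₀).indicator
      (fun _ => ENNReal.ofReal (Real.exp (-(ε * δ / 200))) * (pk k Λ) ^ (1 / 2 : ℝ)) z :=
        lintegral_mono h2
    _ = ENNReal.ofReal (Real.exp (-(ε * δ / 200))) * (pk k Λ) ^ (1 / 2 : ℝ) *
        volume (Cell ε c₀) := by
        rw [lintegral_indicator_const (cell_closed ε c₀).measurableSet]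
    _ = ENNReal.ofReal (ε ^ 2 * Real.exp (-(ε * δ / 200))) * (pk k Λ) ^ (1 / 2 : ℝ) := by
        rw [cell_volume ε hε.le, ← sq, ENNReal.ofReal_mul (sq_nonneg ε)]
        ring

end H63
end KN
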