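import Pool.Agent.Helper63.KN.Common

/-! Swarm KN, part TIN. -/

open MeasureTheory Set Filter Topology
open scoped ENNReal

noncomputable section

namespace KN
namespace H63

theorem ball_inter_real {v : ℂ} {s τ : ℝ} (hτ : 0 ≤ τ) :
    (volume (Metric.ball v s ∩ Metric.closedBall v τ)).toReal ≤ Real.pi * τ ^ 2 := by
  have h1 : (volume (Metric.ball v s ∩ Metric.closedBall v τ)).toReal ≤
      (volume (Metric.closedBall v τ)).toReal := by
    apply ENNReal.toReal_mono
    · exact (isCompact_closedBall v τ).measure_lt_top.ne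
    · exact measure_mono inter_subset_right
  refine h1.trans (le_of_eq ?_)
  rw [Complex.volume_closedBall, ENNReal.toReal_mul, ENNReal.toReal_pow,
    ENNReal.toReal_ofReal hτ]
  simp
  ring

theorem tin_thm (hB : S_BASIC) (hV : S_VOID) (hRes : S_RES) (hI : S_ISOM) (hM : S_MECKE2)
    (hTB : S_TB) : S_TIN := by
  intro k n r ρ Λ Λ' hn hr hρ hρr hΛ hΛ' hΛΛ
  set G : Set (ℂ × ℂ) := {p | p.1 ∈ Inn n (2 * Λ') ∧ dist p.2 p.1 < ρ} with hG
  have hGm : MeasurableSet G := by
    refine MeasurableSet.inter ?_ ?_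
    · exact (Inn_measurable n (by linarith)).preimage measurable_fst
    · exact measurableSet_lt (measurable_snd.dist measurable_fst) measurable_const
  set Q : ℂ × ℂ → Multiset ℂ → Prop := fun p ω => p ∈ G ∧ Iso k p.1 {p.1, p.2} 0 r Λ'
      (res (Metric.ball p.1 (2 * Λ') \ Metric.closedBall p.1 (dist p.2 p.1)) ω) with hQ
  have hQm : JMeas Q := hI.2.2.2 k r Λ' (2 * Λ') G hGm
  have hSm := Sq_measurable n
  have hSf := Sq_finite hn.le
  have h1 : PP (Sq n) (EvT k (Inn n (2 * Λ')) n r ρ Λ') ≤
      PP (Sq n) (fun ω => ∃ z w rest, ω = z ::ₘ w ::ₘ rest ∧ Q (z, w) rest) := by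
    apply PP_mono hB hSm
    rintro ω hω ⟨v, u, rest, rfl, hvW, huS, hd, hiso⟩
    exact ⟨v, u, rest, rfl, ⟨hvW, hd⟩, hiso⟩
  refine h1.trans ((hM (Sq n) hSm hSf Q hQm).trans ?_)
  have h2 : ∀ z w, PP (Sq n) (Q (z, w)) ≤
      ENNReal.ofReal (Real.exp (-(r / 8 * dist w z))) * pk k Λ := by
    intro z w
    by_cases hz : (z, w) ∈ G
    · obtain ⟨hz1, hz2⟩ := hz
      simp only at hz1 hz2
      have hsub : Metric.ball z (2 * Λ') ⊆ Sq n :=
        Metric.ball_subset_closedBall.trans hz1
      have hE : EMeas (Iso k z {z, w} 0 r Λ') :=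
        (hI.1 k z {z, w} 0 r Λ' univ MeasurableSet.univ).2
      have hbm : MeasurableSet (Metric.ball z (2 * Λ')) := Metric.isOpen_ball.measurableSet
      have hcm : MeasurableSet (Metric.closedBall z (dist w z)) :=
        Metric.isClosed_closedBall.measurableSet
      have h3 : PP (Sq n) (Q (z, w)) =
          PP (Metric.ball z (2 * Λ') \ Metric.closedBall z (dist w z)) (Iso k z {z, w} 0 r Λ') := by
        rw [← hRes (Sq n) (Metric.ball z (2 * Λ') \ Metric.closedBall z (dist w z)) hSm
          (hbm.diff hcm) (sdiff_subset.trans hsub) hSf _ hE]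
        apply PP_congr hB hSm
        intro ω _
        simp only [hQ]
        exact ⟨fun h => h.2, fun h => ⟨⟨hz1, hz2⟩, h⟩⟩
      rw [h3]
      have hbf : volume (Metric.ball z (2 * Λ')) ≠ ⊤ := measure_ball_lt_top.ne
      have h4 := void_bound hB hV hbm hcm hbf hE
      have hd0 : 0 ≤ dist w z := dist_nonneg
      have h5 := hTB k z w {z, w} r Λ Λ' hr (by simp) (by simp) (by linarith) hΛ hΛ' hΛΛ
      have h6 : (volume (Metric.ball z (2 * Λ') ∩ Metric.closedBall z (dist w z))).toReal ≤
          Real.pi * dist w z ^ 2 := ball_inter_real hd0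
      refine exp_cancel (c := r / 8 * dist w z) ?_ (h4.trans h5)
      have h7 : Real.pi * dist w z ^ 2 ≤ r / 8 * dist w z := by
        have h8 : Real.pi * dist w z ≤ r / 8 := by
          have := Real.pi_lt_d2
          nlinarith [Real.pi_pos]
        calc Real.pi * dist w z ^ 2 = (Real.pi * dist w z) * dist w z := by ring
          _ ≤ r / 8 * dist w z := mul_le_mul_of_nonneg_right h8 hd0
      linarith
    · rw [PP_false (Sq n) (Q := Q (z, w)) (fun ω h => hz h.1)]
      exact zero_le
  calc ∫⁻ z in Sq n, ∫⁻ w in Sq n, PP (Sq n) (Q (z, w))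
      ≤ ∫⁻ _ in Sq n, ENNReal.ofReal (128 * Real.pi / r ^ 2) * pk k Λ := by
        apply lintegral_mono
        intro z
        calc ∫⁻ w in Sq n, PP (Sq n) (Q (z, w)) ≤ ∫⁻ w, PP (Sq n) (Q (z, w)) :=
              setLIntegral_le_lintegral _ _
          _ ≤ ∫⁻ w, ENNReal.ofReal (Real.exp (-(r / 8 * dist w z))) * pk k Λ :=
              lintegral_mono (h2 z)
          _ = (∫⁻ w, ENNReal.ofReal (Real.exp (-(r / 8 * dist w z)))) * pk k Λ := by
              rw [lintegral_mul_const]
              fun_prop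
          _ = ENNReal.ofReal (128 * Real.pi / r ^ 2) * pk k Λ := by
              rw [lintegral_exp_dist (by positivity)]
              congr 2
              field_simp
              ring
    _ = ENNReal.ofReal (128 * Real.pi / r ^ 2) * pk k Λ * volume (Sq n) := by
        rw [lintegral_const, Measure.restrict_apply_univ]
    _ = ENNReal.ofReal (n * (128 * Real.pi / r ^ 2)) * pk k Λ := by
        rw [Sq_volume hn.le, ENNReal.ofReal_mul hn.le]
        ring

end H63
end KN
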