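import Pool.Agent.Helper63.KN.TIN
import Pool.Agent.Helper63.KN.MLE

/-! Swarm KN, part TLE. -/

open MeasureTheory Set Filter Topology
open scoped ENNReal

noncomputable section

namespace KN
namespace H63

/-- integral over the strip -/
theorem strip_integral {b L : ℝ} (hb : 0 < b) (_hL : 0 ≤ L) :
    ∫⁻ z : ℂ, ({z : ℂ | 0 ≤ z.re ∧ 0 ≤ z.im ∧ z.im ≤ L}).indicator
      (fun z => ENNReal.ofReal (Real.exp (-(b * z.re)))) z = ENNReal.ofReal (L / b) := by
  have h1 := (Complex.volume_preserving_equiv_real_prod).lintegral_comp_emb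
    Complex.measurableEquivRealProd.measurableEmbedding
    (fun p : ℝ × ℝ => (Ici (0 : ℝ)).indicator (fun x => ENNReal.ofReal (Real.exp (-(b * x)))) p.1 *
      (Icc (0 : ℝ) L).indicator (fun _ => 1) p.2)
  have h2 : ∀ z : ℂ, ({z : ℂ | 0 ≤ z.re ∧ 0 ≤ z.im ∧ z.im ≤ L}).indicator
      (fun z => ENNReal.ofReal (Real.exp (-(b * z.re)))) z =
      (Ici (0 : ℝ)).indicator (fun x => ENNReal.ofReal (Real.exp (-(b * x))))
        (Complex.measurableEquivRealProd z).1 *
      (Icc (0 : ℝ) L).indicator (fun _ => 1) (Complex.measurableEquivRealProd z).2 := by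
    intro z
    rw [Complex.measurableEquivRealProd_apply]
    by_cases h3 : 0 ≤ z.re
    · by_cases h4 : 0 ≤ z.im ∧ z.im ≤ L
      · rw [indicator_of_mem (show z ∈ {z : ℂ | 0 ≤ z.re ∧ 0 ≤ z.im ∧ z.im ≤ L} from ⟨h3, h4⟩),
          indicator_of_mem (show z.re ∈ Ici (0 : ℝ) from h3),
          indicator_of_mem (show z.im ∈ Icc (0 : ℝ) L from h4), mul_one]
      · rw [indicator_of_notMem (fun h => h4 h.2), indicator_of_notMem (s := Icc (0 : ℝ) L) h4,
          mul_zero]
    · rw [indicator_of_notMem (fun h => h3 h.1), indicator_of_notMem (s := Ici (0 : ℝ)) h3,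
        zero_mul]
  simp_rw [h2]
  rw [h1, Measure.volume_eq_prod, lintegral_prod_mul]
  · rw [lintegral_indicator measurableSet_Ici, lintegral_indicator_const measurableSet_Icc,
      Real.volume_Icc, one_mul, sub_zero]
    have h5 : ∫⁻ x in Ici (0 : ℝ), ENNReal.ofReal (Real.exp (-(b * x))) =
        ENNReal.ofReal (1 / b) := by
      rw [setLIntegral_congr Ioi_ae_eq_Ici.symm]
      have h6 : IntegrableOn (fun x : ℝ => Real.exp (-(b * x))) (Ioi 0) := by
        have := exp_neg_integrableOn_Ioi 0 hb
        simpa [neg_mul] using this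
      rw [← ofReal_integral_eq_lintegral_ofReal h6
        (Filter.Eventually.of_forall (fun _ => (Real.exp_pos _).le))]
      congr 1
      have h7 := integral_exp_mul_Ioi (a := -b) (by linarith) 0
      simp only [mul_zero, Real.exp_zero] at h7
      have h8 : (fun x : ℝ => Real.exp (-(b * x))) = fun x => Real.exp (-b * x) := by
        funext x; ring_nf
      rw [h8, h7]
      field_simp
    rw [h5, ← ENNReal.ofReal_mul (by positivity)]
    congr 1
    ring
  · apply Measurable.aemeasurable
    apply Measurable.indicator _ measurableSet_Ici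
    fun_prop
  · apply Measurable.aemeasurable
    exact measurable_const.indicator measurableSet_Icc

theorem tle_thm (hB : S_BASIC) (hV : S_VOID) (hRes : S_RES) (hI : S_ISOM) (hM : S_MECKE2)
    (hTB : S_TB) (hDB : S_DB) : S_TLE := by
  intro k n r ρ Λ Λ' hn hr hρ hρr hΛ hΛ' hΛΛ hΛn
  set G : Set (ℂ × ℂ) := {p | p.1 ∈ Lef n (2 * Λ') ∩ {v | 2 * v.re < ρ} ∧
    (p.2 ∈ HP ∧ dist p.2 p.1 < ρ)} with hG
  have hGm : MeasurableSet G := by
    refine MeasurableSet.inter ?_ (MeasurableSet.inter ?_ ?_)
    · refine MeasurableSet.preimage ?_ measurable_fst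
      exact (Lef_measurable n _).inter
        (measurableSet_lt (Complex.measurable_re.const_mul 2) measurable_const)
    · exact HP_measurable.preimage measurable_snd
    · exact measurableSet_lt (measurable_snd.dist measurable_fst) measurable_const
  set Q : ℂ × ℂ → Multiset ℂ → Prop := fun p ω => p ∈ G ∧ Iso k p.1 {p.1, p.2} 0 r Λ'
      (res (Metric.ball p.1 (2 * Λ') \ Metric.closedBall p.1 (dist p.2 p.1)) ω) with hQ
  have hQm : JMeas Q := hI.2.2.2 k r Λ' (2 * Λ') G hGm
  have hSm := Sq_measurable n
  have hSf := Sq_finite hn.le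
  have h1 : PP (Sq n) (EvT k (Lef n (2 * Λ') ∩ {v | 2 * v.re < ρ}) n r ρ Λ') ≤
      PP (Sq n) (fun ω => ∃ z w rest, ω = z ::ₘ w ::ₘ rest ∧ Q (z, w) rest) := by
    apply PP_mono hB hSm
    rintro ω hω ⟨v, u, rest, rfl, hvW, huS, hd, hiso⟩
    exact ⟨v, u, rest, rfl, ⟨hvW, huS.1, hd⟩, hiso⟩
  refine h1.trans ((hM (Sq n) hSm hSf Q hQm).trans ?_)
  set St : Set ℂ := {z : ℂ | 0 ≤ z.re ∧ 0 ≤ z.im ∧ z.im ≤ Real.sqrt n} with hSt
  have h2 : ∀ z w, PP (Sq n) (Q (z, w)) ≤
      St.indicator (fun z => ENNReal.ofReal (Real.exp (-(r / 8 * z.re)))) z *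
      (ENNReal.ofReal (Real.exp (-(r / 32 * dist w z))) * (pk k Λ) ^ (1 / 2 : ℝ)) := by
    intro z w
    by_cases hz : (z, w) ∈ G
    · obtain ⟨⟨hz1, hz2⟩, hwH, hz3⟩ := id hz
      simp only at hz1 hz2 hwH hz3
      have hz2' : 2 * z.re < ρ := hz2
      have hzSt : z ∈ St := ⟨hz1.1, by linarith [hz1.2.2.1], by linarith [hz1.2.2.2]⟩
      rw [indicator_of_mem hzSt]
      have hzH : z ∈ HP := hz1.1
      have hzre : 0 ≤ z.re := hz1.1
      set D : Set ℂ := Metric.ball z (2 * Λ') ∩ HP with hD
      have hDm : MeasurableSet D := (ball_measurable' _ _).inter HP_measurable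
      have hball : Metric.ball z (2 * Λ') ∩ Sq n = D := ball_Lef (by linarith) hz1
      have hsub : D ⊆ Sq n := by rw [← hball]; exact inter_subset_right
      have hE : EMeas (Iso k z {z, w} 0 r Λ') :=
        (hI.1 k z {z, w} 0 r Λ' univ MeasurableSet.univ).2
      have hcm : MeasurableSet (Metric.closedBall z (dist w z)) :=
        Metric.isClosed_closedBall.measurableSet
      have h3 : PP (Sq n) (Q (z, w)) =
          PP (D \ Metric.closedBall z (dist w z)) (Iso k z {z, w} 0 r Λ') := by
        rw [← hRes (Sq n) (D \ Metric.closedBall z (dist w z)) hSm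
          (hDm.diff hcm) (sdiff_subset.trans hsub) hSf _ hE]
        apply PP_congr hB hSm
        intro ω hω
        simp only [hQ]
        have h5 : res (Metric.ball z (2 * Λ') \ Metric.closedBall z (dist w z)) ω =
            res (D \ Metric.closedBall z (dist w z)) ω := by
          apply res_congr
          intro y hy
          constructor
          · rintro ⟨h6, h7⟩
            exact ⟨by rw [← hball]; exact ⟨h6, hω y hy⟩, h7⟩
          · rintro ⟨h6, h7⟩
            exact ⟨h6.1, h7⟩
        rw [h5]
        exact ⟨fun h => h.2, fun h => ⟨hz, h⟩⟩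
      rw [h3]
      have hbf : volume D ≠ ⊤ := ((measure_mono inter_subset_left).trans_lt
        (measure_ball_lt_top (μ := volume) (x := z) (r := 2 * Λ'))).ne
      have h4 := void_bound hB hV hDm hcm hbf hE
      have hRHP : ({z, w} : Set ℂ) ⊆ HP := by
        rintro y (rfl | rfl)
        · exact hzH
        · exact hwH
      have h5 := hDB k z {z, w} 0 r Λ' (2 * Λ') hzH hRHP (Set.toFinite _).isClosed
        ⟨z, by simp⟩ hΛ' le_rfl
      set τ := dist w z with hτ
      have hτ0 : 0 ≤ τ := dist_nonneg
      have hrd : dist (refl z) z = 2 * z.re := by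
        rw [Complex.dist_eq_re_im]
        simp only [refl, sub_self, ne_eq, OfNat.ofNat_ne_zero, not_false_eq_true, zero_pow,
          add_zero]
        rw [Real.sqrt_sq_eq_abs]
        rw [show -z.re - z.re = -(2 * z.re) by ring, abs_neg, abs_of_nonneg (by linarith)]
      have hR'1 : z ∈ ({z, w} : Set ℂ) ∪ refl '' {z, w} := Or.inl (by simp)
      have h6 : PP (Metric.ball z (2 * Λ')) (Iso k z ({z, w} ∪ refl '' {z, w}) 0 r Λ') ≤
          ENNReal.ofReal (Real.exp (-(2 * (r * (τ / 2 + z.re) / 8)))) * pk k Λ := by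
        rcases le_total τ (2 * z.re) with hle | hle
        · have hh := hTB k z (refl z) ({z, w} ∪ refl '' {z, w}) r Λ Λ' hr hR'1
            (Or.inr ⟨z, by simp, rfl⟩) (by rw [hrd]; linarith) hΛ hΛ' hΛΛ
          rw [hrd] at hh
          refine hh.trans ?_
          gcongr
          nlinarith
        · have hh := hTB k z w ({z, w} ∪ refl '' {z, w}) r Λ Λ' hr hR'1
            (Or.inl (by simp)) (by linarith) hΛ hΛ' hΛΛ
          refine hh.trans ?_
          gcongr
          nlinarith
      have h7 := sqrt_bound (h5.trans h6)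
      have h8 : (volume (D ∩ Metric.closedBall z τ)).toReal ≤ Real.pi * τ ^ 2 := by
        refine le_trans ?_ (ball_inter_real (v := z) (s := 2 * Λ') hτ0)
        apply ENNReal.toReal_mono
        · exact ((measure_mono inter_subset_left).trans_lt
            (measure_ball_lt_top (μ := volume) (x := z) (r := 2 * Λ'))).ne
        · exact measure_mono (inter_subset_inter_left _ inter_subset_left)
      have h9 : Real.pi * τ ^ 2 ≤ r * τ / 32 := by
        have h10 : Real.pi * τ ≤ r / 32 := by
          have := Real.pi_lt_d2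
          nlinarith [Real.pi_pos]
        calc Real.pi * τ ^ 2 = (Real.pi * τ) * τ := by ring
          _ ≤ r / 32 * τ := mul_le_mul_of_nonneg_right h10 hτ0
          _ = r * τ / 32 := by ring
      have h11 := exp_cancel (c := r / 8 * z.re + r / 32 * τ) (by linarith) (h4.trans h7)
      refine h11.trans (le_of_eq ?_)
      rw [← mul_assoc, ← ENNReal.ofReal_mul (Real.exp_pos _).le, ← Real.exp_add]
      congr 3
      ring
    · rw [PP_false (Sq n) (Q := Q (z, w)) (fun ω h => hz h.1)]
      exact zero_le
  calc ∫⁻ z in Sq n, ∫⁻ w in Sq n, PP (Sq n) (Q (z, w))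
      ≤ ∫⁻ z, St.indicator (fun z => ENNReal.ofReal (Real.exp (-(r / 8 * z.re)))) z *
          (ENNReal.ofReal (2048 * Real.pi / r ^ 2) * (pk k Λ) ^ (1 / 2 : ℝ)) := by
        refine (setLIntegral_le_lintegral _ _).trans ?_
        apply lintegral_mono
        intro z
        calc ∫⁻ w in Sq n, PP (Sq n) (Q (z, w)) ≤ ∫⁻ w, PP (Sq n) (Q (z, w)) :=
              setLIntegral_le_lintegral _ _
          _ ≤ ∫⁻ w, St.indicator (fun z => ENNReal.ofReal (Real.exp (-(r / 8 * z.re)))) z *
              (ENNReal.ofReal (Real.exp (-(r / 32 * dist w z))) * (pk k Λ) ^ (1 / 2 : ℝ)) :=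
              lintegral_mono (h2 z)
          _ = St.indicator (fun z => ENNReal.ofReal (Real.exp (-(r / 8 * z.re)))) z *
              ((∫⁻ w, ENNReal.ofReal (Real.exp (-(r / 32 * dist w z)))) *
                (pk k Λ) ^ (1 / 2 : ℝ)) := by
              rw [lintegral_const_mul, lintegral_mul_const]
              · fun_prop
              · fun_prop
          _ = St.indicator (fun z => ENNReal.ofReal (Real.exp (-(r / 8 * z.re)))) z *
              (ENNReal.ofReal (2048 * Real.pi / r ^ 2) * (pk k Λ) ^ (1 / 2 : ℝ)) := by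
              rw [lintegral_exp_dist (by positivity)]
              congr 3
              field_simp
              ring
    _ = ENNReal.ofReal (Real.sqrt n / (r / 8)) *
          (ENNReal.ofReal (2048 * Real.pi / r ^ 2) * (pk k Λ) ^ (1 / 2 : ℝ)) := by
        rw [lintegral_mul_const, strip_integral (by positivity) (Real.sqrt_nonneg _)]
        apply Measurable.indicator
        · fun_prop
        · refine MeasurableSet.inter (measurableSet_le measurable_const Complex.measurable_re) ?_
          exact MeasurableSet.inter (measurableSet_le measurable_const Complex.measurable_im)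
            (measurableSet_le Complex.measurable_im measurable_const)
    _ = ENNReal.ofReal (Real.sqrt n * (16384 * Real.pi / r ^ 3)) * (pk k Λ) ^ (1 / 2 : ℝ) := by
        rw [← mul_assoc, ← ENNReal.ofReal_mul (by positivity)]
        congr 2
        field_simp
        ring

end H63
end KN
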